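import Pool.Agent.Helper20.P3F.St1

/-!
# Project P3F, module NVA3 (numbers), after Helper36.EQ.M_NVA
-/

set_option autoImplicit false

open MeasureTheory Set Filter Topology
open scoped ENNReal RealInnerProductSpace

namespace Pool.Agent.Helper37.P3F

open Pool.Agent.Helper20.RG Pool.Agent.Helper20.EQ Pool.Agent.Helper20.P3F

/-- Module NVA3. -/
theorem hNVA3 : Pool.Agent.Helper20.P3F.StNVA3 := by
  intro Cf A e κ Cρ hCf hA he0 he1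
  have hc1 : (1 : ℝ) ≤ (Cρ : ℝ) + 1 := by
    have := Nat.cast_nonneg (α := ℝ) Cρ
    linarith
  obtain ⟨c, hc⟩ : ∃ c : ℝ, c = (Cρ : ℝ) + 1 := ⟨_, rfl⟩
  rw [← hc] at hc1
  have hc0 : 0 < c := by linarith
  refine ⟨0, 10 * (64 * 4096) * 16 * 1026 * c ^ 8 * (Cf * (1 + A)), by positivity, ?_⟩
  intro u v t ρ η m₁ _ hNu
  obtain ⟨hu2, hv, hux, hut, -, hη, hm, -⟩ := hNu
  have hU : (1 : ℝ) ≤ u := by exact_mod_cast (by omega : 1 ≤ u)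
  have hU0 : (0 : ℝ) < u := by linarith
  have hV : (v : ℝ) = c * u := by rw [hv, hc]; push_cast; ring
  have hV1 : (1 : ℝ) ≤ v := by rw [hV]; nlinarith
  have hV0 : (0 : ℝ) < v := by linarith
  obtain ⟨M, hM⟩ : ∃ M : ℝ, M = (2 : ℝ) ^ ((u : ℝ) * (3 / 4)) := ⟨_, rfl⟩
  have hM1 : 1 ≤ M := by
    rw [hM]
    exact Real.one_le_rpow (by norm_num) (by positivity)
  have hM0 : 0 < M := by linarith
  refine ⟨⌈M⌉₊, Nat.one_le_ceil_iff.2 hM0, ?_⟩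
  have hT1 : M ≤ (⌈M⌉₊ : ℝ) := Nat.le_ceil _
  have hT2 : (⌈M⌉₊ : ℝ) ≤ 2 * M := by
    have := Nat.ceil_lt_add_one hM0.le
    linarith
  have hpow : (⌈M⌉₊ : ℝ) ^ (-(1 / 3) : ℝ) ≤ (2 : ℝ) ^ (-((u : ℝ) / 4)) := by
    refine (Real.rpow_le_rpow_of_nonpos hM0 hT1 (by norm_num)).trans (le_of_eq ?_)
    rw [hM, ← Real.rpow_mul (by norm_num)]
    congr 1
    ring
  have hNT : (2 : ℝ) ^ u * (A * (⌈M⌉₊ : ℝ) ^ (-(1 / 3) : ℝ)) ≤ A * M := by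
    have h1 : (2 : ℝ) ^ u * (⌈M⌉₊ : ℝ) ^ (-(1 / 3) : ℝ) ≤ M := by
      calc (2 : ℝ) ^ u * (⌈M⌉₊ : ℝ) ^ (-(1 / 3) : ℝ)
          ≤ (2 : ℝ) ^ u * (2 : ℝ) ^ (-((u : ℝ) / 4)) := by gcongr
        _ = M := by
            rw [hM, ← Real.rpow_natCast 2 u, ← Real.rpow_add (by norm_num)]
            congr 1
            ring
    calc (2 : ℝ) ^ u * (A * (⌈M⌉₊ : ℝ) ^ (-(1 / 3) : ℝ))
        = A * ((2 : ℝ) ^ u * (⌈M⌉₊ : ℝ) ^ (-(1 / 3) : ℝ)) := by ring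
      _ ≤ A * M := by gcongr
  have hmu : mu u A 3 ((2 : ℝ) ^ 0 * (1024 * (v : ℝ) ^ 2)) (⌈M⌉₊ : ℝ) ≤
      1026 * (v : ℝ) ^ 2 * (1 + A) * M := by
    unfold mu
    have hv2 : (1 : ℝ) ≤ (v : ℝ) ^ 2 := by nlinarith
    calc (⌈M⌉₊ : ℝ) + (2 : ℝ) ^ 0 * (1024 * (v : ℝ) ^ 2) *
          (1 + (2 : ℝ) ^ u * (A * (⌈M⌉₊ : ℝ) ^ (-(1 / 3) : ℝ)))
        ≤ 2 * M + (2 : ℝ) ^ 0 * (1024 * (v : ℝ) ^ 2) * (1 + A * M) := by gcongr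
      _ ≤ 2 * ((v : ℝ) ^ 2 * (1 + A) * M) + 1024 * (v : ℝ) ^ 2 * ((1 + A) * M) := by
          have ha : M ≤ (v : ℝ) ^ 2 * (1 + A) * M := by
            have : 1 ≤ (v : ℝ) ^ 2 * (1 + A) := by nlinarith
            nlinarith
          have hb : 1 + A * M ≤ (1 + A) * M := by nlinarith
          have hb' : 1024 * (v : ℝ) ^ 2 * (1 + A * M) ≤ 1024 * (v : ℝ) ^ 2 * ((1 + A) * M) := by
            gcongr
          rw [pow_zero, one_mul]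
          linarith
      _ = 1026 * (v : ℝ) ^ 2 * (1 + A) * M := by ring
  have hm1 : 1 / m₁ ≤ 10 * v * (2 : ℝ) ^ (-((1 - e) * t)) := by
    rw [hm, Real.rpow_neg (by norm_num), one_div, inv_div, div_eq_mul_inv]
    have : 2 * (3 * (v : ℝ) + 2) ≤ 10 * v := by linarith
    gcongr
  have hηi : 2 * Ms v / η = 8 * Ms v * (2 : ℝ) ^ (ρ : ℝ) := by
    have e1' : η = (4 * (2 : ℝ) ^ ρ)⁻¹ := by
      rw [hη, zpow_neg, zpow_add₀ (by norm_num), zpow_natCast]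
      norm_num
      ring
    rw [e1', Real.rpow_natCast, div_inv_eq_mul]
    ring
  have hMs0 : 0 ≤ Ms v := by unfold Ms; positivity
  have hMs : Ms v ≤ 64 * (v : ℝ) ^ 2 := by
    unfold Ms
    nlinarith
  have h2 : (2 * Ms v / η) ^ 2 ≤ 64 * 4096 * (v : ℝ) ^ 4 * (2 : ℝ) ^ (2 * (ρ : ℝ)) := by
    rw [hηi]
    have e2 : (2 : ℝ) ^ (2 * (ρ : ℝ)) = ((2 : ℝ) ^ (ρ : ℝ)) ^ 2 := by
      rw [← Real.rpow_natCast, ← Real.rpow_mul (by norm_num)]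
      congr 1
      push_cast
      ring
    rw [e2]
    calc (8 * Ms v * (2 : ℝ) ^ (ρ : ℝ)) ^ 2 ≤ (8 * (64 * (v : ℝ) ^ 2) * (2 : ℝ) ^ (ρ : ℝ)) ^ 2 := by
          gcongr
      _ = _ := by ring
  have hux8 : (u : ℝ) ^ 8 ≤ (2 : ℝ) ^ (8 * (e / 20 * t)) := by
    calc (u : ℝ) ^ 8 ≤ ((2 : ℝ) ^ (e / 20 * t)) ^ 8 := by gcongr
      _ = _ := by
        rw [← Real.rpow_natCast, ← Real.rpow_mul (by norm_num)]
        congr 1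
        push_cast
        ring
  have hmu0 : 0 ≤ mu u A 3 ((2 : ℝ) ^ 0 * (1024 * (v : ℝ) ^ 2)) (⌈M⌉₊ : ℝ) := by
    unfold mu; positivity
  have hexp : 8 * (e / 20 * t) + (-((1 - e) * t)) + 2 * (ρ : ℝ) + (u : ℝ) * (3 / 4) ≤
      tge e u t ρ := by
    unfold tge
    have hρ : 0 ≤ (ρ : ℝ) := Nat.cast_nonneg _
    have ht : (0 : ℝ) ≤ t := Nat.cast_nonneg _
    have het : e * t ≤ 1 / 100 * t := mul_le_mul_of_nonneg_right he1 ht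
    nlinarith
  calc 1 / m₁ * (2 * Ms v / η) ^ 2 *
        (16 * v * (Cf * mu u A 3 ((2 : ℝ) ^ 0 * (1024 * (v : ℝ) ^ 2)) (⌈M⌉₊ : ℝ)))
      ≤ (10 * v * (2 : ℝ) ^ (-((1 - e) * t))) *
        (64 * 4096 * (v : ℝ) ^ 4 * (2 : ℝ) ^ (2 * (ρ : ℝ))) *
        (16 * v * (Cf * (1026 * (v : ℝ) ^ 2 * (1 + A) * M))) := by gcongr
    _ = 10 * (64 * 4096) * 16 * 1026 * c ^ 8 * (Cf * (1 + A)) *
        ((u : ℝ) ^ 8 * (2 : ℝ) ^ (-((1 - e) * t)) * (2 : ℝ) ^ (2 * (ρ : ℝ)) *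
          (2 : ℝ) ^ ((u : ℝ) * (3 / 4))) := by
        rw [hV, hM]; ring
    _ ≤ 10 * (64 * 4096) * 16 * 1026 * c ^ 8 * (Cf * (1 + A)) *
        ((2 : ℝ) ^ (8 * (e / 20 * t)) * (2 : ℝ) ^ (-((1 - e) * t)) * (2 : ℝ) ^ (2 * (ρ : ℝ)) *
          (2 : ℝ) ^ ((u : ℝ) * (3 / 4))) := by gcongr
    _ = 10 * (64 * 4096) * 16 * 1026 * c ^ 8 * (Cf * (1 + A)) *
        (2 : ℝ) ^ (8 * (e / 20 * t) + (-((1 - e) * t)) + 2 * (ρ : ℝ) + (u : ℝ) * (3 / 4)) := by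
        rw [Real.rpow_add (by norm_num), Real.rpow_add (by norm_num), Real.rpow_add (by norm_num)]
    _ ≤ _ := by
        gcongr
        norm_num

end Pool.Agent.Helper37.P3F
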